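import Pool.Agent.K1H79.GE.StmB
import Pool.Agent.W215.UN.Gam

/-!
# The L-function of the character `𝔞 ↦ (-3 / N 𝔞)`: entire continuation and a bound

Task W6 of helper79 (`S_LBof`): Phragmén-Lindelöf in the strip `-3 ≤ Re s ≤ 4`.
-/

set_option autoImplicit false

namespace Pool.Agent.K1H20.GE

open NumberField Complex Filter Topology Set
open scoped Classical
open Pool.Agent.K1H79.GE Pool.Agent.K1H79 Pool.Agent.R362.HL Pool.Agent.Y773 Pool.Agent.Y773.G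

/-- the bound on the line `Re s = 4` for the Gamma factor -/
lemma gamR_le {s : ℂ} (hs : 0 < s.re) : ‖Complex.Gammaℝ s‖ ≤ ‖Complex.Gammaℝ (s.re : ℂ)‖ := by
  rw [Complex.Gammaℝ_def, Complex.Gammaℝ_def, norm_mul, norm_mul]
  have h1 : ‖(Real.pi : ℂ) ^ (-s / 2)‖ = ‖(Real.pi : ℂ) ^ (-(s.re : ℂ) / 2)‖ := by
    rw [Complex.norm_cpow_eq_rpow_re_of_pos Real.pi_pos, Complex.norm_cpow_eq_rpow_re_of_pos Real.pi_pos]
    congr 1
    simp
  have h2 : ‖Complex.Gamma (s / 2)‖ ≤ ‖Complex.Gamma ((s.re : ℂ) / 2)‖ := by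
    have h3 : 0 < (s / 2).re := by
      simp
      linarith
    refine (Pool.Agent.W215.UN.norm_Gamma_le _ h3).trans ?_
    have h4 : ((s.re : ℂ) / 2) = (((s / 2).re : ℝ) : ℂ) := by
      simp
    rw [h4, Complex.Gamma_ofReal, Complex.norm_real]
    exact le_abs_self _
  rw [h1]
  exact mul_le_mul_of_nonneg_left h2 (norm_nonneg _)

/-- Phragmén-Lindelöf for the strip -/
lemma strip_bound {X : ℂ → ℂ} (hX : Differentiable ℂ X) {C B : ℝ}
    (hg : ∀ s : ℂ, -3 ≤ s.re → s.re ≤ 4 → ‖X s‖ ≤ C * (1 + ‖s‖) ^ 2)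
    (h1 : ∀ s : ℂ, s.re = -3 → ‖X s‖ ≤ B) (h2 : ∀ s : ℂ, s.re = 4 → ‖X s‖ ≤ B) :
    ∀ s : ℂ, -3 ≤ s.re → s.re ≤ 4 → ‖X s‖ ≤ B := by
  intro s hs1 hs2
  refine PhragmenLindelof.vertical_strip (a := -3) (b := 4) hX.diffContOnCl ?_ h1 h2 hs1 hs2
  refine ⟨1 / 10, ?_, 20, ?_⟩
  · have := Real.pi_gt_three
    rw [lt_div_iff₀ (by norm_num)]
    linarith
  refine Asymptotics.IsBigO.of_bound (max C 0) ?_
  refine Filter.mem_inf_of_right ?_
  rw [Filter.mem_principal]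
  intro z hz
  simp only [mem_preimage, mem_Ioo] at hz
  have h3 := hg z hz.1.le hz.2.le
  show ‖X z‖ ≤ max C 0 * ‖Real.exp (20 * Real.exp (1 / 10 * |z.im|))‖
  rw [Real.norm_eq_abs, abs_of_pos (Real.exp_pos _)]
  have h4 : ‖z‖ ≤ 4 + |z.im| := by
    have h5 := Complex.norm_le_abs_re_add_abs_im z
    have h6 : |z.re| ≤ 4 := abs_le.mpr ⟨by linarith [hz.1], hz.2.le⟩
    linarith
  have h7 : (1 + ‖z‖) ^ 2 ≤ Real.exp (20 * Real.exp (1 / 10 * |z.im|)) := by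
    have h8 : 1 + ‖z‖ ≤ Real.exp (4 + |z.im|) := by
      have := Real.add_one_le_exp (4 + |z.im|)
      linarith
    have h9 : 1 / 10 * |z.im| + 1 ≤ Real.exp (1 / 10 * |z.im|) := Real.add_one_le_exp _
    calc (1 + ‖z‖) ^ 2 ≤ (Real.exp (4 + |z.im|)) ^ 2 := by
          have := norm_nonneg z
          gcongr
      _ = Real.exp (2 * (4 + |z.im|)) := by
          rw [← Real.exp_nat_mul]
          norm_num
      _ ≤ _ := by
          apply Real.exp_le_exp.mpr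
          have := abs_nonneg z.im
          linarith
  calc ‖X z‖ ≤ C * (1 + ‖z‖) ^ 2 := h3
    _ ≤ max C 0 * (1 + ‖z‖) ^ 2 := by
        gcongr
        exact le_max_left _ _
    _ ≤ _ := by
        gcongr

/-- the sum over the ideals of `N(𝔞)^(-4)` -/
lemma LI_four {F : Type} [Field F] [NumberField F] {C : ℝ} (hC : 0 < C)
    (hm : ∀ m : ℕ, 1 ≤ m → (Nat.card {J : Ideal (𝓞 F) // Ideal.absNorm J = m} : ℝ) ≤ C * (m : ℝ) ^ (1 : ℝ))
    {ψ : Ideal (𝓞 F) →*₀ ℂ} (hψ : ∀ 𝔞, ‖ψ 𝔞‖ ≤ 1) {s : ℂ} (hs : s.re = 4) :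
    ‖LI ψ s‖ ≤ C * ∑' m : ℕ, 1 / (m : ℝ) ^ 3 := by
  have hsum : Summable fun m : ℕ => 1 / (m : ℝ) ^ 3 := Real.summable_one_div_nat_pow.mpr (by norm_num)
  have hs1 : 1 < s.re := by rw [hs]; norm_num
  have hS := (summable_LI hψ hs1).norm
  unfold LI
  refine (norm_tsum_le_tsum_norm hS).trans ?_
  refine hS.tsum_le_of_sum_le fun T => ?_
  have h1 : ∀ 𝔞 : Ideal (𝓞 F), ‖ψ 𝔞 * ((Ideal.absNorm 𝔞 : ℕ) : ℂ) ^ (-s)‖ ≤
      if Ideal.absNorm 𝔞 = 0 then 0 else 1 / (Ideal.absNorm 𝔞 : ℝ) ^ 4 := by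
    intro 𝔞
    split_ifs with h0
    · have h2 : 𝔞 = 0 := Ideal.absNorm_eq_zero_iff.mp h0
      rw [h2, map_zero, zero_mul, norm_zero]
    · have h3 : (0 : ℝ) < (Ideal.absNorm 𝔞 : ℝ) := by exact_mod_cast Nat.pos_of_ne_zero h0
      have h4 : ‖((Ideal.absNorm 𝔞 : ℕ) : ℂ) ^ (-s)‖ = 1 / (Ideal.absNorm 𝔞 : ℝ) ^ 4 := by
        have h5 : (((Ideal.absNorm 𝔞 : ℕ) : ℂ)) = (((Ideal.absNorm 𝔞 : ℕ) : ℝ) : ℂ) := by norm_cast
        rw [h5, Complex.norm_cpow_eq_rpow_re_of_pos h3, neg_re, hs, Real.rpow_neg h3.le, one_div]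
        congr 1
        exact Real.rpow_ofNat _ 4
      rw [norm_mul, h4]
      have h5 : 0 ≤ 1 / (Ideal.absNorm 𝔞 : ℝ) ^ 4 := by positivity
      calc ‖ψ 𝔞‖ * (1 / (Ideal.absNorm 𝔞 : ℝ) ^ 4) ≤ 1 * (1 / (Ideal.absNorm 𝔞 : ℝ) ^ 4) :=
            mul_le_mul_of_nonneg_right (hψ 𝔞) h5
        _ = _ := one_mul _
  calc ∑ 𝔞 ∈ T, ‖ψ 𝔞 * ((Ideal.absNorm 𝔞 : ℕ) : ℂ) ^ (-s)‖
      ≤ ∑ 𝔞 ∈ T, (if Ideal.absNorm 𝔞 = 0 then 0 else 1 / (Ideal.absNorm 𝔞 : ℝ) ^ 4) :=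
        Finset.sum_le_sum fun 𝔞 _ => h1 𝔞
    _ = ∑ m ∈ T.image Ideal.absNorm, ∑ 𝔞 ∈ T with Ideal.absNorm 𝔞 = m,
          (if Ideal.absNorm 𝔞 = 0 then 0 else 1 / (Ideal.absNorm 𝔞 : ℝ) ^ 4) :=
        (Finset.sum_fiberwise_of_maps_to (fun 𝔞 h𝔞 => Finset.mem_image_of_mem _ h𝔞) _).symm
    _ ≤ ∑ m ∈ T.image Ideal.absNorm, C * (1 / (m : ℝ) ^ 3) := by
        refine Finset.sum_le_sum fun m _ => ?_
        by_cases hm0 : m = 0
        · rw [hm0]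
          rw [Finset.sum_eq_zero]
          · simp
          · intro 𝔞 h𝔞
            rw [Finset.mem_filter] at h𝔞
            rw [if_pos h𝔞.2]
        have hmp : (0 : ℝ) < m := by exact_mod_cast Nat.pos_of_ne_zero hm0
        have h6 : ∀ 𝔞 ∈ T.filter (fun 𝔞 => Ideal.absNorm 𝔞 = m),
            (if Ideal.absNorm 𝔞 = 0 then (0 : ℝ) else 1 / (Ideal.absNorm 𝔞 : ℝ) ^ 4) = 1 / (m : ℝ) ^ 4 := by
          intro 𝔞 h𝔞
          rw [Finset.mem_filter] at h𝔞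
          rw [h𝔞.2, if_neg hm0]
        rw [Finset.sum_congr rfl h6, Finset.sum_const, nsmul_eq_mul]
        have h7 : ((T.filter (fun 𝔞 => Ideal.absNorm 𝔞 = m)).card : ℝ) ≤ C * m := by
          have h8 := hm m (Nat.one_le_iff_ne_zero.mpr hm0)
          rw [Real.rpow_one] at h8
          refine le_trans ?_ h8
          have hfin : Finite {J : Ideal (𝓞 F) // Ideal.absNorm J = m} :=
            (Ideal.finite_setOfPred_absNorm_eq m).to_subtype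
          rw [← Nat.card_eq_finsetCard]
          exact_mod_cast Nat.card_le_card_of_injective
            (fun x : {x // x ∈ T.filter (fun 𝔞 => Ideal.absNorm 𝔞 = m)} =>
              (⟨x.1, (Finset.mem_filter.mp x.2).2⟩ : {J : Ideal (𝓞 F) // Ideal.absNorm J = m}))
            (fun x y h => Subtype.ext (congrArg (fun z => z.1) h))
        calc _ ≤ (C * m) * (1 / (m : ℝ) ^ 4) := by gcongr
          _ = _ := by
            field_simp
    _ = C * ∑ m ∈ T.image Ideal.absNorm, 1 / (m : ℝ) ^ 3 := by rw [Finset.mul_sum]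
    _ ≤ _ := by
        refine mul_le_mul_of_nonneg_left ?_ hC.le
        exact hsum.sum_le_tsum _ fun m _ => by positivity

/-- the real version of a character with values `0, 1, -1` -/
noncomputable def rePsi {F : Type} [Field F] [NumberField F] (ψ : Ideal (𝓞 F) →*₀ ℂ)
    (h : ∀ 𝔞, ψ 𝔞 = 0 ∨ ψ 𝔞 = 1 ∨ ψ 𝔞 = -1) : Ideal (𝓞 F) →*₀ ℝ where
  toFun 𝔞 := (ψ 𝔞).re
  map_zero' := by rw [map_zero, zero_re]
  map_one' := by rw [map_one, one_re]
  map_mul' 𝔞 𝔟 := by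
    rw [map_mul]
    rcases h 𝔞 with h1 | h1 | h1 <;> rcases h 𝔟 with h2 | h2 | h2 <;> rw [h1, h2] <;> simp

lemma rePsi_coe {F : Type} [Field F] [NumberField F] (ψ : Ideal (𝓞 F) →*₀ ℂ)
    (h : ∀ 𝔞, ψ 𝔞 = 0 ∨ ψ 𝔞 = 1 ∨ ψ 𝔞 = -1) (𝔞 : Ideal (𝓞 F)) : ((rePsi ψ h 𝔞 : ℝ) : ℂ) = ψ 𝔞 := by
  show (((ψ 𝔞).re : ℝ) : ℂ) = ψ 𝔞
  rcases h 𝔞 with h1 | h1 | h1 <;> rw [h1] <;> simp

/-- the inverse Gamma factors are bounded on the disc -/
lemma inv_gamR_bdd : ∃ M : ℝ, 1 ≤ M ∧ ∀ s : ℂ, ‖s - 2‖ ≤ 2 → ∀ k : ℕ, k ≤ 1 →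
    ‖(Complex.Gammaℝ (s + k))⁻¹‖ ≤ M := by
  have hK : IsCompact (Metric.closedBall (2 : ℂ) 3) := isCompact_closedBall _ _
  obtain ⟨M, hM⟩ := hK.exists_bound_of_continuousOn
    (Complex.differentiable_Gammaℝ_inv.continuous.continuousOn)
  refine ⟨max M 1, le_max_right _ _, fun s hs k hk => ?_⟩
  refine (hM (s + k) ?_).trans (le_max_left _ _)
  rw [Metric.mem_closedBall, dist_eq_norm]
  have h1 : s + k - 2 = (s - 2) + k := by ring
  have h2 : ‖(k : ℂ)‖ ≤ 1 := by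
    rw [Complex.norm_natCast]
    exact_mod_cast hk
  rw [h1]
  calc ‖(s - 2) + (k : ℂ)‖ ≤ ‖s - 2‖ + ‖(k : ℂ)‖ := norm_add_le _ _
    _ ≤ 3 := by linarith

/-- **`S_LBof`** -/
theorem t_LBof : S_LBof := by
  intro hPR hNT hRM f
  obtain ⟨C0, hC0, hm⟩ := hRM f 1 one_pos
  obtain ⟨M2, hM2, hinv⟩ := inv_gamR_bdd
  set Z : ℝ := ∑' m : ℕ, 1 / (m : ℝ) ^ 3 with hZ
  have hZ0 : 0 ≤ Z := tsum_nonneg fun m => by positivity
  set M1 : ℝ := max 1 (max ‖Complex.Gammaℝ (4 : ℂ)‖ ‖Complex.Gammaℝ (5 : ℂ)‖) with hM1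
  have hM1' : 1 ≤ M1 := le_max_left _ _
  refine ⟨9 ^ f * (M1 ^ f * (C0 * (Z + 1)) * M2 ^ f), 2, by positivity, by norm_num, ?_⟩
  intro F _ _ hF hNo
  obtain ⟨𝔣, e, ψ, hray, h𝔣, hval, hp1, hp2⟩ := hPR F
  obtain ⟨P, hP, hP0, hPn⟩ := hNT F hNo
  obtain ⟨hψ, X, hX⟩ := hray.xi
  refine ⟨rePsi ψ hval, ⟨fun 𝔞 => ?_, fun 𝔞 h𝔞 => ?_, fun 𝔞 h𝔞 => ?_⟩, ?_⟩
  · show (ψ 𝔞).re = 0 ∨ (ψ 𝔞).re = 1 ∨ (ψ 𝔞).re = -1
    rcases hval 𝔞 with h1 | h1 | h1 <;> rw [h1] <;> simp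
  · show (ψ 𝔞).re = 1
    rw [hp1 𝔞 h𝔞, one_re]
  · show (ψ 𝔞).re = -1
    rw [hp2 𝔞 h𝔞, neg_re, one_re]
  have hr : rayPole ψ = 0 := by
    unfold rayPole
    rw [if_neg]
    intro h1
    have h2 := h1 P hP0
    rw [hp2 P hPn] at h2
    norm_num at h2
  set R : ℝ := rayCond 𝔣 with hR
  have hR1 : 1 ≤ R := hX.one_le
  have hR0 : 0 < R := by linarith
  have hRc : (R : ℂ) ≠ 0 := by exact_mod_cast hR0.ne'
  have hcard : Fintype.card (F →+* ℂ) = f := by rw [card_emb, hF]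
  -- the conductor
  have hRle : R ≤ 3 ^ f * |(discr F : ℝ)| := by
    have h1 : Ideal.absNorm 𝔣 ∣ 3 ^ f := by
      have h2 := Ideal.absNorm_dvd_absNorm_of_le (Ideal.dvd_iff_le.mp h𝔣)
      have h3 : Ideal.absNorm (Ideal.span {(3 : 𝓞 F)}) = 3 ^ f := by
        have h4 := absNorm_span_nat (K := F) 3
        rw [hF] at h4
        exact_mod_cast h4
      rwa [h3] at h2
    have h2 : Ideal.absNorm 𝔣 ≤ 3 ^ f := Nat.le_of_dvd (by positivity) h1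
    have h3 : ((Ideal.absNorm 𝔣 : ℕ) : ℝ) ≤ 3 ^ f := by exact_mod_cast h2
    rw [hR]
    unfold rayCond
    push_cast
    rw [Nat.cast_natAbs]
    push_cast
    gcongr
  -- the bound on the line `Re s = 4`
  set B : ℝ := R ^ 2 * M1 ^ f * (C0 * Z) with hB
  have hline : ∀ s : ℂ, s.re = 4 → ‖X s‖ ≤ B := by
    intro s hs
    have hs1 : 1 < s.re := by rw [hs]; norm_num
    rw [hX.eq s hs1, hr, pow_zero, one_mul, norm_mul, norm_mul]
    have h1 : ‖(R : ℂ) ^ (s / 2)‖ = R ^ 2 := by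
      rw [Complex.norm_cpow_eq_rpow_re_of_pos hR0]
      have : (s / 2).re = 2 := by
        simp [hs]
        norm_num
      rw [this]
      exact Real.rpow_ofNat R 2
    have h2 : ‖∏ φ : F →+* ℂ, Complex.Gammaℝ (s + ex e φ)‖ ≤ M1 ^ f := by
      rw [norm_prod]
      calc ∏ φ : F →+* ℂ, ‖Complex.Gammaℝ (s + ex e φ)‖ ≤ ∏ φ : F →+* ℂ, M1 := by
            refine Finset.prod_le_prod (fun _ _ => norm_nonneg _) fun φ _ => ?_
            have h3 : 0 < (s + ex e φ).re := by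
              simp only [add_re, natCast_re, hs]
              positivity
            refine (gamR_le h3).trans ?_
            have h4 := ex_le hray.sig_le φ
            interval_cases hk : ex e φ
            · have h5 : (((s + ((0 : ℕ) : ℂ)).re : ℝ) : ℂ) = 4 := by
                simp [hs]
              rw [h5]
              exact le_max_of_le_right (le_max_left _ _)
            · have h5 : (((s + ((1 : ℕ) : ℂ)).re : ℝ) : ℂ) = 5 := by
                simp [hs]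
                norm_num
              rw [h5]
              exact le_max_of_le_right (le_max_right _ _)
        _ = M1 ^ f := by
            rw [Finset.prod_const, Finset.card_univ, hcard]
    have h3 := LI_four hC0 (hm F hF) hψ hs
    rw [h1, hB]
    have h4 : 0 ≤ ‖∏ φ : F →+* ℂ, Complex.Gammaℝ (s + ex e φ)‖ := norm_nonneg _
    gcongr
  obtain ⟨w, hw, hfe⟩ := hX.fe
  have hline' : ∀ s : ℂ, s.re = -3 → ‖X s‖ ≤ B := by
    intro s hs
    rw [hfe s, norm_mul, hw, one_mul, Complex.norm_conj]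
    refine hline _ ?_
    simp [hs]
    norm_num
  obtain ⟨C1, -, hC1⟩ := hX.strip (-3) 4
  have hall := strip_bound hX.diff hC1 hline' hline
  -- the L-function
  have hcp : Differentiable ℂ fun s : ℂ => (R : ℂ) ^ (-(s / 2)) := by
    intro s
    exact DifferentiableAt.const_cpow (by fun_prop) (Or.inl hRc)
  refine ⟨fun s => X s * ((R : ℂ) ^ (-(s / 2)) * ∏ φ : F →+* ℂ, (Complex.Gammaℝ (s + ex e φ))⁻¹),
    hX.diff.mul (hcp.mul (differentiable_gam (ex e))), fun s hs => ?_, fun s hs => ?_⟩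
  · have h1 : X s * ((R : ℂ) ^ (-(s / 2)) * ∏ φ : F →+* ℂ, (Complex.Gammaℝ (s + ex e φ))⁻¹) = LI ψ s := by
      rw [hX.eq s hs, hr, pow_zero, one_mul, Finset.prod_inv_distrib, Complex.cpow_neg]
      have h3 := gam_ne_zero (ex e) (s := s) (by linarith)
      have h4 : (R : ℂ) ^ (s / 2) ≠ 0 := by
        rw [Ne, Complex.cpow_eq_zero_iff]
        exact fun h => hRc h.1
      field_simp
    simp only
    rw [h1]
    have h2 := (summable_LI hψ hs).hasSum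
    simp_rw [rePsi_coe]
    exact h2
  · have hre0 : 0 ≤ s.re := by
      have h1 := (Complex.abs_re_le_norm (s - 2)).trans hs
      rw [sub_re, abs_le] at h1
      have h2 : (2 : ℂ).re = 2 := by norm_num
      rw [h2] at h1
      linarith [h1.1]
    have hre4 : s.re ≤ 4 := by
      have h1 := (Complex.abs_re_le_norm (s - 2)).trans hs
      rw [sub_re, abs_le] at h1
      have h2 : (2 : ℂ).re = 2 := by norm_num
      rw [h2] at h1
      linarith [h1.2]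
    have h1 : ‖X s‖ ≤ B := hall s (by linarith) hre4
    have h2 : ‖(R : ℂ) ^ (-(s / 2))‖ ≤ 1 := by
      rw [Complex.norm_cpow_eq_rpow_re_of_pos hR0]
      refine Real.rpow_le_one_of_one_le_of_nonpos hR1 ?_
      simp
      linarith
    have h3 : ‖∏ φ : F →+* ℂ, (Complex.Gammaℝ (s + ex e φ))⁻¹‖ ≤ M2 ^ f := by
      rw [norm_prod]
      calc ∏ φ : F →+* ℂ, ‖(Complex.Gammaℝ (s + ex e φ))⁻¹‖ ≤ ∏ φ : F →+* ℂ, M2 :=
            Finset.prod_le_prod (fun _ _ => norm_nonneg _) fun φ _ => hinv s hs _ (ex_le hray.sig_le φ)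
        _ = M2 ^ f := by
            rw [Finset.prod_const, Finset.card_univ, hcard]
    rw [norm_mul, norm_mul]
    have hd0 : 0 ≤ |(discr F : ℝ)| := abs_nonneg _
    have hR2 : R ^ 2 ≤ 9 ^ f * |(discr F : ℝ)| ^ 2 := by
      calc R ^ 2 ≤ (3 ^ f * |(discr F : ℝ)|) ^ 2 := by gcongr
        _ = _ := by
          rw [mul_pow, ← pow_mul, mul_comm f 2, pow_mul]
          norm_num
    have hrp : |(discr F : ℝ)| ^ (2 : ℝ) = |(discr F : ℝ)| ^ 2 := by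
      exact Real.rpow_ofNat _ 2
    rw [hrp]
    have hB0 : 0 ≤ B := (norm_nonneg _).trans h1
    calc ‖X s‖ * (‖(R : ℂ) ^ (-(s / 2))‖ * ‖∏ φ : F →+* ℂ, (Complex.Gammaℝ (s + ex e φ))⁻¹‖)
        ≤ B * (1 * M2 ^ f) := by gcongr
      _ = R ^ 2 * (M1 ^ f * (C0 * Z) * M2 ^ f) := by rw [hB]; ring
      _ ≤ (9 ^ f * |(discr F : ℝ)| ^ 2) * (M1 ^ f * (C0 * (Z + 1)) * M2 ^ f) := by
          gcongr
          linarith
      _ = _ := by ring

end Pool.Agent.K1H20.GE
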